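import Pool.Agent.FSU.Defs

/-!
# The certificates for the additional pairs of primes
-/

set_option autoImplicit false

namespace Pool.Agent.FSU

open Finset
open Pool.Agent.FS (hb qq Half Datum)
open Pool.Agent.FS.KillAux

namespace KillX

variable {m : ℕ} [NeZero m] {A : Type} [AddCommGroup A]

section

variable (D : Datum m A) (L : Set ℕ)

/-- the relation from the distribution relation for `3` -/
lemma FB_even3 {N : ℕ} (hN : N ∣ m) (h3 : 3 ∣ N) {l : ℕ} (hl : l.Prime) (hL : qq m l ∈ L)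
    (j w w' : ℕ) (hj : N ∣ l ^ 1 * j) (hw : w ≡ j + 2 * (N / 3) [MOD N])
    (hw' : N ∣ w' + (j + 1 * (N / 3))) : FB D L N w = FB D L N w' := by
  have d1 := FB_dist D L hN Nat.prime_three h3 j
  have k1 : FB D L N j = 0 := FB_kill D L hN hl hL hj
  have k2 : FB D L N (3 * j) = 0 :=
    FB_kill D L hN hl hL (k := 1) (by rw [mul_left_comm]; exact hj.mul_left 3)
  rw [sum_range_succ, sum_range_succ, sum_range_succ, range_zero, sum_empty, zero_mul, add_zero,
    k1, k2, zero_add, zero_add] at d1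
  rw [FB_congr D L hN hw, FB_neg D L hN hw']
  exact eq_neg_of_add_eq_zero_right d1

/-- the relation from the distribution relation for `3` -/
lemma FB_even3' {N : ℕ} (hN : N ∣ m) (h3 : 3 ∣ N) {l : ℕ} (hl : l.Prime) (hL : qq m l ∈ L)
    (j w w' : ℕ) (hj : N ∣ l ^ 1 * j) (hw : w ≡ j + 1 * (N / 3) [MOD N])
    (hw' : N ∣ w' + (j + 2 * (N / 3))) : FB D L N w = FB D L N w' := by
  have d1 := FB_dist D L hN Nat.prime_three h3 j
  have k1 : FB D L N j = 0 := FB_kill D L hN hl hL hj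
  have k2 : FB D L N (3 * j) = 0 :=
    FB_kill D L hN hl hL (k := 1) (by rw [mul_left_comm]; exact hj.mul_left 3)
  rw [sum_range_succ, sum_range_succ, sum_range_succ, range_zero, sum_empty, zero_mul, add_zero,
    k1, k2, zero_add, zero_add] at d1
  rw [FB_congr D L hN hw, FB_neg D L hN hw']
  exact eq_neg_of_add_eq_zero_left d1

/-- the relation from the distribution relation for `2` -/
lemma FB_even2 {N : ℕ} (hN : N ∣ m) (h2 : 2 ∣ N) {l : ℕ} (hl : l.Prime) (hL : qq m l ∈ L)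
    (i j w w' : ℕ) (hi : N ∣ l ^ 1 * i) (hij : 2 * j ≡ i + N / 2 [MOD N])
    (hw : w ≡ j + N / 2 [MOD N]) (hw' : N ∣ w' + j) : FB D L N w = FB D L N w' := by
  have k1 : FB D L N (i + N / 2) = 0 := FB_kill2 D L hN h2 hl hL hi
  rw [FB_congr D L hN hw, FB_half D L hN h2, FB_congr D L hN hij, k1, zero_sub,
    FB_neg D L hN hw']

end

variable {P : Set (ℕ × ℕ)} (D : DatumX P m A) (L : Set ℕ)

lemma FB_four {p q k : ℕ} {l : List ℕ} (h : (p, q, k, l) ∈ extra) (hP : (p, q) ∈ P) (hk : k ∣ m) :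
    (l.map fun a => FB D.toDatum L k a).sum = 0 := by
  have h1 := D.four p q k l h hP hk
  have h2 : ∀ l' : List ℕ, (l'.map fun a => FB D.toDatum L k a).sum =
      QuotientAddGroup.mk ((l'.map fun a => D.f ((m / k * a : ℕ) : ZMod m)).sum) := by
    intro l'
    induction l' with
    | nil => rfl
    | cons a l' ih =>
      rw [List.map_cons, List.sum_cons, ih, List.map_cons, List.sum_cons, QuotientAddGroup.mk_add]
      rfl
  rw [h2, h1]
  rfl

lemma Y57 (hP : (5, 7) ∈ P) (h₁ : 35 ∣ m) (hL₁ : qq m 5 ∈ L) (hL₂ : qq m 7 ∈ L) :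
    FB D.toDatum L 35 1 + (FB D.toDatum L 35 2 + (FB D.toDatum L 35 16 + (FB D.toDatum L 35 17 +
      (FB D.toDatum L 35 22 + FB D.toDatum L 35 31)))) = 0 := by
  have e := FB_four D L (p := 5) (q := 7)
    (l := [1, 2, 16, 21, 30, 17, 22, 31]) (by decide) hP h₁
  have k1 : FB D.toDatum L 35 21 = 0 :=
    FB_kill D.toDatum L h₁ Nat.prime_five hL₁ (k := 1) (by decide)
  have k2 : FB D.toDatum L 35 30 = 0 :=
    FB_kill D.toDatum L h₁ (by norm_num : Nat.Prime 7) hL₂ (k := 1) (by decide)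
  simp only [List.map_cons, List.map_nil, List.sum_cons, List.sum_nil, k1, k2, zero_add,
    add_zero] at e
  exact e

lemma Y211 (hP : (2, 11) ∈ P) (h₁ : 44 ∣ m) (hL₁ : qq m 2 ∈ L) (hL₂ : qq m 11 ∈ L) :
    FB D.toDatum L 44 1 + (FB D.toDatum L 44 5 + (FB D.toDatum L 44 13 +
      (FB D.toDatum L 44 25 + FB D.toDatum L 44 37))) = 0 := by
  have e := FB_four D L (p := 2) (q := 11)
    (l := [1, 5, 8, 33, 41, 9, 37, 42]) (by decide) hP h₁
  have p11 : Nat.Prime 11 := by norm_num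
  have k1 : FB D.toDatum L 44 8 = 0 := FB_kill D.toDatum L h₁ p11 hL₂ (k := 1) (by decide)
  have k2 : FB D.toDatum L 44 33 = 0 :=
    FB_kill D.toDatum L h₁ Nat.prime_two hL₁ (k := 2) (by decide)
  have k3 : FB D.toDatum L 44 42 = 0 :=
    FB_kill2 D.toDatum L h₁ (by decide) p11 hL₂ (k := 1) (j := 20) (by decide)
  have r1 : FB D.toDatum L 44 13 = FB D.toDatum L 44 9 :=
    FB_even2 D.toDatum L h₁ (by decide) p11 hL₂ 4 35 13 9 (by decide) (by decide) (by decide)
      (by decide)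
  have r2 : FB D.toDatum L 44 25 = FB D.toDatum L 44 41 :=
    FB_even2 D.toDatum L h₁ (by decide) p11 hL₂ 28 3 25 41 (by decide) (by decide) (by decide)
      (by decide)
  simp only [List.map_cons, List.map_nil, List.sum_cons, List.sum_nil, k1, k2, k3, zero_add,
    add_zero] at e
  rw [r1, r2, ← e]
  abel

lemma Y213 (hP : (2, 13) ∈ P) (h₁ : 52 ∣ m) (hL₂ : qq m 13 ∈ L) :
    FB D.toDatum L 52 1 + (FB D.toDatum L 52 5 + (FB D.toDatum L 52 17 +
      (FB D.toDatum L 52 29 + (FB D.toDatum L 52 41 + FB D.toDatum L 52 45)))) = 0 := by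
  have e := FB_four D L (p := 2) (q := 13)
    (l := [1, 5, 9, 37, 12, 45, 49, 50]) (by decide) hP h₁
  have p13 : Nat.Prime 13 := by norm_num
  have k1 : FB D.toDatum L 52 12 = 0 := FB_kill D.toDatum L h₁ p13 hL₂ (k := 1) (by decide)
  have k3 : FB D.toDatum L 52 50 = 0 :=
    FB_kill2 D.toDatum L h₁ (by decide) p13 hL₂ (k := 1) (j := 24) (by decide)
  have r1 : FB D.toDatum L 52 17 = FB D.toDatum L 52 9 :=
    FB_even2 D.toDatum L h₁ (by decide) p13 hL₂ 8 43 17 9 (by decide) (by decide) (by decide)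
      (by decide)
  have r2 : FB D.toDatum L 52 29 = FB D.toDatum L 52 49 :=
    FB_even2 D.toDatum L h₁ (by decide) p13 hL₂ 32 3 29 49 (by decide) (by decide) (by decide)
      (by decide)
  have r3 : FB D.toDatum L 52 41 = FB D.toDatum L 52 37 :=
    FB_even2 D.toDatum L h₁ (by decide) p13 hL₂ 4 15 41 37 (by decide) (by decide) (by decide)
      (by decide)
  simp only [List.map_cons, List.map_nil, List.sum_cons, List.sum_nil, k1, k3, zero_add,
    add_zero] at e
  rw [r1, r2, r3, ← e]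
  abel

lemma Y317 (hP : (3, 17) ∈ P) (h₁ : 51 ∣ m) (hL₁ : qq m 3 ∈ L) (hL₂ : qq m 17 ∈ L) :
    FB D.toDatum L 51 1 + (FB D.toDatum L 51 4 + (FB D.toDatum L 51 7 + (FB D.toDatum L 51 19 +
      (FB D.toDatum L 51 22 + (FB D.toDatum L 51 25 + (FB D.toDatum L 51 37 +
        FB D.toDatum L 51 40)))))) = 0 := by
  have e := FB_four D L (p := 3) (q := 17)
    (l := [1, 18, 34, 49, 10, 13, 28, 22, 37, 43]) (by decide) hP h₁
  have p17 : Nat.Prime 17 := by norm_num
  have k1 : FB D.toDatum L 51 18 = 0 := FB_kill D.toDatum L h₁ p17 hL₂ (k := 1) (by decide)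
  have k2 : FB D.toDatum L 51 34 = 0 :=
    FB_kill D.toDatum L h₁ Nat.prime_three hL₁ (k := 1) (by decide)
  have r1 : FB D.toDatum L 51 19 = FB D.toDatum L 51 49 :=
    FB_even3 D.toDatum L h₁ (by decide) p17 hL₂ 36 19 49 (by decide) (by decide) (by decide)
  have r2 : FB D.toDatum L 51 7 = FB D.toDatum L 51 10 :=
    FB_even3 D.toDatum L h₁ (by decide) p17 hL₂ 24 7 10 (by decide) (by decide) (by decide)
  have r3 : FB D.toDatum L 51 4 = FB D.toDatum L 51 13 :=
    FB_even3 D.toDatum L h₁ (by decide) p17 hL₂ 21 4 13 (by decide) (by decide) (by decide)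
  have r4 : FB D.toDatum L 51 40 = FB D.toDatum L 51 28 :=
    FB_even3 D.toDatum L h₁ (by decide) p17 hL₂ 6 40 28 (by decide) (by decide) (by decide)
  have r5 : FB D.toDatum L 51 25 = FB D.toDatum L 51 43 :=
    FB_even3 D.toDatum L h₁ (by decide) p17 hL₂ 42 25 43 (by decide) (by decide) (by decide)
  simp only [List.map_cons, List.map_nil, List.sum_cons, List.sum_nil, k1, k2, zero_add,
    add_zero] at e
  rw [r1, r2, r3, r4, r5, ← e]
  abel

lemma Y319 (hP : (3, 19) ∈ P) (h₁ : 114 ∣ m) (hL₂ : qq m 19 ∈ L) :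
    FB D.toDatum L 57 1 + (FB D.toDatum L 57 4 + (FB D.toDatum L 57 7 + (FB D.toDatum L 57 22 +
      (FB D.toDatum L 57 25 + (FB D.toDatum L 57 28 + (FB D.toDatum L 57 40 +
        (FB D.toDatum L 57 43 + FB D.toDatum L 57 46))))))) = 0 := by
  have h₀ : 57 ∣ m := (by decide : 57 ∣ 114).trans h₁
  have e := FB_four D L (p := 3) (q := 19)
    (l := [1, 13, 43, 57, 61, 90, 92, 99]) (by decide) hP h₁
  have p19 : Nat.Prime 19 := by norm_num
  have lev : ∀ j, FB D.toDatum L 114 (2 * j) = FB D.toDatum L 57 j := fun j =>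
    (FB_level D.toDatum L (N := 57) (r := 2) h₁ (by decide) j).symm
  have half : ∀ j, FB D.toDatum L 114 (2 * j + 57) =
      FB D.toDatum L 57 (2 * j) - FB D.toDatum L 57 j := by
    intro j
    have h := FB_half D.toDatum L h₁ (by decide) (2 * j)
    rw [lev, lev] at h
    exact h
  have a1 : FB D.toDatum L 114 1 = FB D.toDatum L 57 1 + FB D.toDatum L 57 28 := by
    rw [FB_congr D.toDatum L h₁ (by decide : 1 ≡ 2 * 29 + 57 [MOD 114]), half,
      FB_congr D.toDatum L h₀ (by decide : 2 * 29 ≡ 1 [MOD 57]),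
      FB_neg D.toDatum L h₀ (by decide : 57 ∣ 29 + 28), sub_neg_eq_add]
  have a2 : FB D.toDatum L 114 13 = FB D.toDatum L 57 25 + FB D.toDatum L 57 22 := by
    rw [FB_congr D.toDatum L h₁ (by decide : 13 ≡ 2 * 35 + 57 [MOD 114]), half,
      FB_congr D.toDatum L h₀ (by decide : 2 * 35 ≡ 13 [MOD 57]),
      FB_neg D.toDatum L h₀ (by decide : 57 ∣ 35 + 22), sub_neg_eq_add,
      FB_even3' D.toDatum L h₀ (by decide) p19 hL₂ 51 13 25 (by decide) (by decide) (by decide)]
  have a3 : FB D.toDatum L 114 43 = FB D.toDatum L 57 43 + FB D.toDatum L 57 7 := by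
    rw [FB_congr D.toDatum L h₁ (by decide : 43 ≡ 2 * 50 + 57 [MOD 114]), half,
      FB_congr D.toDatum L h₀ (by decide : 2 * 50 ≡ 43 [MOD 57]),
      FB_neg D.toDatum L h₀ (by decide : 57 ∣ 50 + 7), sub_neg_eq_add]
  have a4 : FB D.toDatum L 114 57 = 0 := by
    have h := half 0
    rw [mul_zero, zero_add, sub_self] at h
    exact h
  have a5 : FB D.toDatum L 114 61 = FB D.toDatum L 57 4 + FB D.toDatum L 57 40 := by
    have h := half 2
    rw [FB_neg D.toDatum L h₀ (by decide : 57 ∣ 2 + 55), sub_neg_eq_add,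
      FB_even3' D.toDatum L h₀ (by decide) p19 hL₂ 36 55 40 (by decide) (by decide)
        (by decide)] at h
    exact h
  have a6 : FB D.toDatum L 114 90 = 0 := FB_kill D.toDatum L h₁ p19 hL₂ (k := 1) (by decide)
  have a7 : FB D.toDatum L 114 92 = FB D.toDatum L 57 46 := lev 46
  have a8 : FB D.toDatum L 114 99 = 0 :=
    FB_kill2 D.toDatum L h₁ (by decide) p19 hL₂ (k := 1) (j := 42) (by decide)
  simp only [List.map_cons, List.map_nil, List.sum_cons, List.sum_nil, a1, a2, a3, a4, a5, a6, a7,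
    a8, zero_add, add_zero] at e
  rw [← e]
  abel

lemma Y217 (hP : (2, 17) ∈ P) (h₁ : 68 ∣ m) (hL₂ : qq m 17 ∈ L) :
    FB D.toDatum L 68 1 + (FB D.toDatum L 68 5 + (FB D.toDatum L 68 21 +
      (FB D.toDatum L 68 25 + (FB D.toDatum L 68 37 + (FB D.toDatum L 68 41 +
        (FB D.toDatum L 68 53 + FB D.toDatum L 68 57)))))) = 0 := by
  have e := FB_four D L (p := 2) (q := 17)
    (l := [31, 7, 64, 34, 2, 23, 43, 67, 63, 40, 34, 47, 15, 6]) (by decide) hP h₁
  have p17 : Nat.Prime 17 := by norm_num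
  have k1 : FB D.toDatum L 68 64 = 0 := FB_kill D.toDatum L h₁ p17 hL₂ (k := 1) (by decide)
  have k2 : FB D.toDatum L 68 40 = 0 := FB_kill D.toDatum L h₁ p17 hL₂ (k := 1) (by decide)
  have k3 : FB D.toDatum L 68 2 = 0 :=
    (FB_congr D.toDatum L h₁ (by decide : 2 ≡ 36 + 68 / 2 [MOD 68])).trans
      (FB_kill2 D.toDatum L h₁ (by decide) p17 hL₂ (k := 1) (j := 36) (by decide))
  have k4 : FB D.toDatum L 68 6 = 0 :=
    (FB_congr D.toDatum L h₁ (by decide : 6 ≡ 40 + 68 / 2 [MOD 68])).trans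
      (FB_kill2 D.toDatum L h₁ (by decide) p17 hL₂ (k := 1) (j := 40) (by decide))
  have k5 : FB D.toDatum L 68 34 = 0 :=
    FB_kill2 D.toDatum L h₁ (by decide) p17 hL₂ (k := 1) (j := 0) (by decide)
  have r1 : FB D.toDatum L 68 61 = FB D.toDatum L 68 41 :=
    FB_even2 D.toDatum L h₁ (by decide) p17 hL₂ 20 27 61 41 (by decide) (by decide) (by decide)
      (by decide)
  have r2 : FB D.toDatum L 68 45 = FB D.toDatum L 68 57 :=
    FB_even2 D.toDatum L h₁ (by decide) p17 hL₂ 56 11 45 57 (by decide) (by decide) (by decide)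
      (by decide)
  have n1 := FB_neg D.toDatum L h₁ (by decide : 68 ∣ 31 + 37)
  have n2 := FB_neg D.toDatum L h₁ (by decide : 68 ∣ 7 + 61)
  have n3 := FB_neg D.toDatum L h₁ (by decide : 68 ∣ 23 + 45)
  have n4 := FB_neg D.toDatum L h₁ (by decide : 68 ∣ 43 + 25)
  have n5 := FB_neg D.toDatum L h₁ (by decide : 68 ∣ 67 + 1)
  have n6 := FB_neg D.toDatum L h₁ (by decide : 68 ∣ 63 + 5)
  have n7 := FB_neg D.toDatum L h₁ (by decide : 68 ∣ 47 + 21)
  have n8 := FB_neg D.toDatum L h₁ (by decide : 68 ∣ 15 + 53)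
  rw [r1] at n2
  rw [r2] at n3
  simp only [List.map_cons, List.map_nil, List.sum_cons, List.sum_nil, k1, k2, k3, k4, k5, n1, n2,
    n3, n4, n5, n6, n7, n8, zero_add, add_zero] at e
  rw [← neg_eq_zero, ← e]
  abel

lemma Y511 (hP : (5, 11) ∈ P) (h₁ : 55 ∣ m) (hL₂ : qq m 11 ∈ L) :
    FB D.toDatum L 55 1 + (FB D.toDatum L 55 2 + (FB D.toDatum L 55 12 +
      (FB D.toDatum L 55 16 + (FB D.toDatum L 55 26 + (FB D.toDatum L 55 27 +
        (FB D.toDatum L 55 36 + (FB D.toDatum L 55 37 + (FB D.toDatum L 55 46 +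
          FB D.toDatum L 55 47)))))))) = 0 := by
  have e := FB_four D L (p := 5) (q := 11)
    (l := [1, 16, 26, 31, 36, 12, 27, 37, 42, 47]) (by decide) hP h₁
  have p11 : Nat.Prime 11 := by norm_num
  have k1 : FB D.toDatum L 55 35 = 0 := FB_kill D.toDatum L h₁ p11 hL₂ (k := 1) (by decide)
  have k2 : FB D.toDatum L 55 (5 * 2) = 0 :=
    FB_kill D.toDatum L h₁ p11 hL₂ (k := 1) (by decide)
  have d := FB_dist D.toDatum L h₁ Nat.prime_five (by decide) 2
  rw [sum_range_succ, sum_range_succ, sum_range_succ, sum_range_succ, sum_range_succ, range_zero,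
    sum_empty, k2] at d
  have d' : FB D.toDatum L 55 2 + FB D.toDatum L 55 13 + FB D.toDatum L 55 24 +
      FB D.toDatum L 55 35 + FB D.toDatum L 55 46 = 0 := by
    rw [← d]
    norm_num
  rw [k1, FB_neg D.toDatum L h₁ (by decide : 55 ∣ 13 + 42),
    FB_neg D.toDatum L h₁ (by decide : 55 ∣ 24 + 31)] at d'
  simp only [List.map_cons, List.map_nil, List.sum_cons, List.sum_nil, add_zero] at e
  have h := congrArg₂ (· + ·) e d'
  simp only [add_zero] at h
  rw [← h]
  abel

end KillX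

open KillX

variable {m : ℕ} [NeZero m] {A : Type} [AddCommGroup A] {P : Set (ℕ × ℕ)} (D : DatumX P m A)

/-- The certificates. -/
theorem Y_memX (hm : 2 ∣ m) (l₁ l₂ : ℕ) (hK : Kill P l₁ l₂)
    (h₁ : hb l₁ ∣ m) (h₂ : hb l₂ ∣ m) (L : Set ℕ) (hL₁ : qq m l₁ ∈ L) (hL₂ : qq m l₂ ∈ L) :
    D.Y l₁ l₂ ∈ D.lev L := by
  rcases hK with hp | ⟨hP, hp⟩
  · exact Pool.Agent.FS.Y_mem D.toDatum hm l₁ l₂ hp h₁ h₂ L hL₁ hL₂
  have p7 : Nat.Prime 7 := by norm_num
  have p11 : Nat.Prime 11 := by norm_num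
  have p13 : Nat.Prime 13 := by norm_num
  have p17 : Nat.Prime 17 := by norm_num
  have p19 : Nat.Prime 19 := by norm_num
  simp only [List.mem_cons, Prod.mk.injEq, List.not_mem_nil, or_false] at hp
  rcases hp with ⟨rfl, rfl⟩ | ⟨rfl, rfl⟩ | ⟨rfl, rfl⟩ | ⟨rfl, rfl⟩ | ⟨rfl, rfl⟩ | ⟨rfl, rfl⟩ |
    ⟨rfl, rfl⟩
  · have hd : 35 ∣ m := Nat.Coprime.mul_dvd_of_dvd_of_dvd (by decide : Nat.Coprime 5 7) h₁ h₂
    refine Y_FB D.toDatum L 5 7 35 Nat.prime_five p7 (by decide) h₁ h₂ (by decide)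
      {1, 2, 16, 17, 22, 31} (by decide +kernel) ?_
    rw [sum_insert (by decide), sum_insert (by decide), sum_insert (by decide),
      sum_insert (by decide), sum_insert (by decide), sum_singleton]
    exact Y57 D L hP hd hL₁ hL₂
  · have hd : 44 ∣ m := Nat.Coprime.mul_dvd_of_dvd_of_dvd (by decide : Nat.Coprime 4 11) h₁ h₂
    refine Y_FB D.toDatum L 2 11 44 Nat.prime_two p11 (by decide) h₁ h₂ (by decide)
      {1, 5, 13, 25, 37} (by decide +kernel) ?_
    rw [sum_insert (by decide), sum_insert (by decide), sum_insert (by decide),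
      sum_insert (by decide), sum_singleton]
    exact Y211 D L hP hd hL₁ hL₂
  · have hd : 52 ∣ m := Nat.Coprime.mul_dvd_of_dvd_of_dvd (by decide : Nat.Coprime 4 13) h₁ h₂
    refine Y_FB D.toDatum L 2 13 52 Nat.prime_two p13 (by decide) h₁ h₂ (by decide)
      {1, 5, 17, 29, 41, 45} (by decide +kernel) ?_
    rw [sum_insert (by decide), sum_insert (by decide), sum_insert (by decide),
      sum_insert (by decide), sum_insert (by decide), sum_singleton]
    exact Y213 D L hP hd hL₂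
  · have hd : 51 ∣ m := Nat.Coprime.mul_dvd_of_dvd_of_dvd (by decide : Nat.Coprime 3 17) h₁ h₂
    refine Y_FB D.toDatum L 3 17 51 Nat.prime_three p17 (by decide) h₁ h₂ (by decide)
      {1, 4, 7, 19, 22, 25, 37, 40} (by decide +kernel) ?_
    rw [sum_insert (by decide), sum_insert (by decide), sum_insert (by decide),
      sum_insert (by decide), sum_insert (by decide), sum_insert (by decide),
      sum_insert (by decide), sum_singleton]
    exact Y317 D L hP hd hL₁ hL₂
  · have hd : 57 ∣ m := Nat.Coprime.mul_dvd_of_dvd_of_dvd (by decide : Nat.Coprime 3 19) h₁ h₂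
    have hd2 : 114 ∣ m := Nat.Coprime.mul_dvd_of_dvd_of_dvd (by decide : Nat.Coprime 2 57) hm hd
    refine Y_FB D.toDatum L 3 19 57 Nat.prime_three p19 (by decide) h₁ h₂ (by decide)
      {1, 4, 7, 22, 25, 28, 40, 43, 46} (by decide +kernel) ?_
    rw [sum_insert (by decide), sum_insert (by decide), sum_insert (by decide),
      sum_insert (by decide), sum_insert (by decide), sum_insert (by decide),
      sum_insert (by decide), sum_insert (by decide), sum_singleton]
    exact Y319 D L hP hd2 hL₂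
  · have hd : 68 ∣ m := Nat.Coprime.mul_dvd_of_dvd_of_dvd (by decide : Nat.Coprime 4 17) h₁ h₂
    refine Y_FB D.toDatum L 2 17 68 Nat.prime_two p17 (by decide) h₁ h₂ (by decide)
      {1, 5, 21, 25, 37, 41, 53, 57} (by decide +kernel) ?_
    rw [sum_insert (by decide), sum_insert (by decide), sum_insert (by decide),
      sum_insert (by decide), sum_insert (by decide), sum_insert (by decide),
      sum_insert (by decide), sum_singleton]
    exact Y217 D L hP hd hL₂
  · have hd : 55 ∣ m := Nat.Coprime.mul_dvd_of_dvd_of_dvd (by decide : Nat.Coprime 5 11) h₁ h₂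
    refine Y_FB D.toDatum L 5 11 55 Nat.prime_five p11 (by decide) h₁ h₂ (by decide)
      {1, 2, 12, 16, 26, 27, 36, 37, 46, 47} (by decide +kernel) ?_
    rw [sum_insert (by decide), sum_insert (by decide), sum_insert (by decide),
      sum_insert (by decide), sum_insert (by decide), sum_insert (by decide),
      sum_insert (by decide), sum_insert (by decide), sum_insert (by decide), sum_singleton]
    exact Y511 D L hP hd hL₂

end Pool.Agent.FSU
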