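import Pool.Agent.FSU.Quot
import Pool.Agent.FSU.Kill

/-!
# The chain of levels for the extended version
-/

set_option autoImplicit false

namespace Pool.Agent.FSU

open Finset
open Pool.Agent.FS (IsHodge Datum PP LS prs PP_mem prime_dvd_PP LS_not_dvd hb_dvd remove2 tripleStep
  singles qq hb lev_mono f_mem_lev f_half)

section chain

variable {m : ℕ} [NeZero m] {A : Type} [AddCommGroup A] {P : Set (ℕ × ℕ)} (D : DatumX P m A)

theorem pairStepX (hm : 2 ∣ m) {l₁ l₂ : ℕ} (hl₁ : l₁.Prime) (hl₂ : l₂.Prime) (hne : l₁ ≠ l₂)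
    (hp : Kill P l₁ l₂) (L : Set ℕ)
    (hLS : LS m (prs m) ⊆ L) (hL : ∀ n' ∈ L, ¬ l₁ ∣ n' ∨ ¬ l₂ ∣ n') (a : A)
    (ha : a ∈ D.lev (insert (PP m l₁ * PP m l₂) L)) (hW : ∀ t, D.W t a = 0) : a ∈ D.lev L := by
  by_cases h1 : 3 ≤ qq m l₁
  · by_cases h2 : 3 ≤ qq m l₂
    · have e1 : PP m l₁ = qq m l₁ := if_pos h1
      have e2 : PP m l₂ = qq m l₂ := if_pos h2
      rw [e1, e2] at ha
      have hq1 : qq m l₁ ∈ L := hLS (e1 ▸ PP_mem hl₁)
      have hq2 : qq m l₂ ∈ L := hLS (e2 ▸ PP_mem hl₂)
      exact remove2 D.toDatum l₁ l₂ hl₁ hl₂ hne h1 h2 L hq1 hq2 hL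
        (Y_memX D hm l₁ l₂ hp (hb_dvd h1) (hb_dvd h2) L hq1 hq2) a ha hW
    · have e2 : PP m l₂ = 1 := if_neg h2
      rw [e2, mul_one, Set.insert_eq_of_mem (hLS (PP_mem hl₁))] at ha
      exact ha
  · have e1 : PP m l₁ = 1 := if_neg h1
    rw [e1, one_mul, Set.insert_eq_of_mem (hLS (PP_mem hl₂))] at ha
    exact ha

/-- allowed sets of primes -/
def Al (P : Set (ℕ × ℕ)) (T : Finset ℕ) : Prop :=
  T.card ≤ 3 ∧ ∀ p ∈ T, ∀ q ∈ T, p < q → Kill P p q

theorem Al.mono {T T' : Finset ℕ} (h : Al P T) (hT : T' ⊆ T) : Al P T' :=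
  ⟨(card_le_card hT).trans h.1, fun p hp q hq hpq => h.2 p (hT hp) q (hT hq) hpq⟩

/-- the levels given by a family of sets of primes -/
def LV (m : ℕ) (F : Finset (Finset ℕ)) : Set ℕ :=
  LS m (prs m) ∪ {n | ∃ T ∈ F, n = ∏ l ∈ T, PP m l}

omit [NeZero m] in
theorem LV_subset {F F' : Finset (Finset ℕ)} (h : F ⊆ F') : LV m F ⊆ LV m F' := by
  rintro n (hn | ⟨T, hT, rfl⟩)
  · exact Or.inl hn
  · exact Or.inr ⟨T, h hT, rfl⟩

omit [NeZero m] in
theorem LV_insert (F : Finset (Finset ℕ)) (T : Finset ℕ) :
    LV m F ⊆ insert (∏ l ∈ T, PP m l) (LV m (F.erase T)) := by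
  rintro n (hn | ⟨T', hT', rfl⟩)
  · exact Or.inr (Or.inl hn)
  · by_cases h : T' = T
    · rw [h]
      exact Or.inl rfl
    · exact Or.inr (Or.inr ⟨T', mem_erase.2 ⟨h, hT'⟩, rfl⟩)

/-- a prime dividing a product is in the set -/
theorem mem_of_dvd_prod {T : Finset ℕ} (hT : ∀ l ∈ T, l.Prime) {l : ℕ} (hl : l.Prime)
    (h : l ∣ ∏ a ∈ T, PP m a) : l ∈ T := by
  obtain ⟨a, ha, h1⟩ := (Prime.dvd_finsetProd_iff hl.prime _).1 h
  rw [prime_dvd_PP hl (hT a ha) h1]
  exact ha

/-- elements of the levels are not divisible by all elements of a set of maximal cardinality -/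
theorem LV_not_dvd {F : Finset (Finset ℕ)} {T : Finset ℕ} (hF : ∀ T' ∈ F, ∀ l ∈ T', l.Prime)
    (hmax : ∀ T' ∈ F, T'.card ≤ T.card) (hT : ∀ l ∈ T, l.Prime) (hc : 2 ≤ T.card) :
    ∀ n' ∈ LV m (F.erase T), ∃ l ∈ T, ¬ l ∣ n' := by
  rintro n' (h | ⟨T', hT', rfl⟩)
  · obtain ⟨a, ha, b, hb, hab⟩ := one_lt_card.1 (by omega : 1 < T.card)
    rcases LS_not_dvd (hT a ha) (hT b hb) hab n' h with h | h
    · exact ⟨a, ha, h⟩
    · exact ⟨b, hb, h⟩
  · by_contra hcon
    push Not at hcon
    rw [mem_erase] at hT'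
    have hsub : T ⊆ T' := fun l hl => mem_of_dvd_prod (hF T' hT'.2) (hT l hl) (hcon l hl)
    exact hT'.1 (eq_of_subset_of_card_le hsub (hmax T' hT'.2)).symm

theorem chainX (hm : 2 ∣ m) (N : ℕ) : ∀ (F : Finset (Finset ℕ)), F.card = N →
    (∀ T ∈ F, ∀ l ∈ T, l.Prime) → (∀ T ∈ F, Al P T) → (∀ T ∈ F, ∀ l ∈ T, T.erase l ∈ F) →
    ∀ a : A, a ∈ D.lev (LV m F) → (∀ t, D.W t a = 0) → a = 0 := by
  induction N with
  | zero =>
    intro F hN _ _ _ a ha hW
    rw [card_eq_zero] at hN
    subst hN
    refine singles D.toDatum (prs m) ?_ a ?_ hW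
    · intro l hl
      rw [prs, mem_filter] at hl
      exact ⟨Nat.prime_of_mem_primeFactors hl.1, hl.2⟩
    · refine lev_mono D.toDatum ?_ ha
      rintro n (hn | ⟨T, hT, rfl⟩)
      · exact hn
      · exact absurd hT (notMem_empty T)
  | succ N ih =>
    intro F hN hpr hAl her a ha hW
    have hne : F.Nonempty := card_pos.1 (by omega)
    obtain ⟨T, hTF, hmax⟩ := exists_max_image F card hne
    have hcard : (F.erase T).card = N := by rw [card_erase_of_mem hTF, hN]; rfl
    refine ih (F.erase T) hcard (fun T' hT' => hpr T' (mem_of_mem_erase hT'))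
      (fun T' hT' => hAl T' (mem_of_mem_erase hT')) ?_ a ?_ hW
    · intro T' hT' l hl
      rw [mem_erase] at hT' ⊢
      refine ⟨?_, her T' hT'.2 l hl⟩
      intro h
      have h1 := hmax T' hT'.2
      rw [← h, card_erase_of_mem hl] at h1
      have h2 : 0 < T'.card := card_pos.2 ⟨l, hl⟩
      omega
    · have ha' := lev_mono D.toDatum (LV_insert F T) ha
      have hLS : LS m (prs m) ⊆ LV m (F.erase T) := fun n hn => Or.inl hn
      have hTp := hpr T hTF
      have hAT := hAl T hTF
      -- the products over smaller sets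
      have hsm : ∀ l ∈ T, (∏ a ∈ T.erase l, PP m a) ∈ LV m (F.erase T) := by
        intro l hl
        refine Or.inr ⟨T.erase l, ?_, rfl⟩
        rw [mem_erase]
        refine ⟨?_, her T hTF l hl⟩
        intro h
        exact notMem_erase l T (h.symm ▸ hl)
      have hnd := LV_not_dvd (m := m) hpr hmax hTp
      rcases Nat.lt_or_ge T.card 2 with h2 | h2
      · rcases Nat.le_one_iff_eq_zero_or_eq_one.1 (by omega : T.card ≤ 1) with h | h
        · rw [card_eq_zero] at h
          have h1 : ∏ l ∈ T, PP m l = 1 := by rw [h, prod_empty]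
          rw [h1, Set.insert_eq_of_mem (hLS (Or.inl rfl))] at ha'
          exact ha'
        · obtain ⟨l, hl⟩ := card_eq_one.1 h
          rw [hl, prod_singleton, Set.insert_eq_of_mem] at ha'
          · rw [hl]
            exact ha'
          · exact Or.inl (PP_mem (hTp l (hl ▸ mem_singleton_self l)))
      · have hnd2 := hnd h2
        rcases Nat.lt_or_ge T.card 3 with h3 | h3
        · obtain ⟨x, y, hxy, hT⟩ := card_eq_two.1 (by omega : T.card = 2)
          have hx : x ∈ T := by rw [hT]; simp
          have hy : y ∈ T := by rw [hT]; simp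
          have hprod : ∏ l ∈ T, PP m l = PP m x * PP m y := by rw [hT, prod_pair hxy]
          rw [hprod] at ha'
          have hnd' : ∀ n' ∈ LV m (F.erase T), ¬ x ∣ n' ∨ ¬ y ∣ n' := by
            intro n' hn'
            obtain ⟨l, hl, hln⟩ := hnd2 n' hn'
            rw [hT, mem_insert, mem_singleton] at hl
            rcases hl with rfl | rfl
            · exact Or.inl hln
            · exact Or.inr hln
          rcases lt_or_gt_of_ne hxy with hlt | hlt
          · exact pairStepX D hm (hTp x hx) (hTp y hy) hxy (hAT.2 x hx y hy hlt)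
              _ hLS hnd' a ha' hW
          · rw [mul_comm] at ha'
            exact pairStepX D hm (hTp y hy) (hTp x hx) hxy.symm (hAT.2 y hy x hx hlt)
              _ hLS (fun n' hn' => (hnd' n' hn').symm) a ha' hW
        · obtain ⟨x, y, z, hxy, hxz, hyz, hT⟩ := card_eq_three.1
            (le_antisymm hAT.1 h3)
          have hx : x ∈ T := by rw [hT]; simp
          have hy : y ∈ T := by rw [hT]; simp
          have hz : z ∈ T := by rw [hT]; simp
          have hprod : ∏ l ∈ T, PP m l = PP m x * PP m y * PP m z := by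
            rw [hT, prod_insert (by simp [hxy, hxz]), prod_pair hyz, mul_assoc]
          rw [hprod] at ha'
          have e1 : T.erase x = {y, z} := by
            rw [hT]
            ext w
            simp only [mem_erase, mem_insert, mem_singleton]
            constructor
            · rintro ⟨h, h' | h' | h'⟩
              · exact absurd h' h
              · exact Or.inl h'
              · exact Or.inr h'
            · rintro (rfl | rfl)
              · exact ⟨hxy.symm, Or.inr (Or.inl rfl)⟩
              · exact ⟨hxz.symm, Or.inr (Or.inr rfl)⟩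
          have e2 : T.erase y = {x, z} := by
            rw [hT]
            ext w
            simp only [mem_erase, mem_insert, mem_singleton]
            constructor
            · rintro ⟨h, h' | h' | h'⟩
              · exact Or.inl h'
              · exact absurd h' h
              · exact Or.inr h'
            · rintro (rfl | rfl)
              · exact ⟨hxy, Or.inl rfl⟩
              · exact ⟨hyz.symm, Or.inr (Or.inr rfl)⟩
          have e3 : T.erase z = {x, y} := by
            rw [hT]
            ext w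
            simp only [mem_erase, mem_insert, mem_singleton]
            constructor
            · rintro ⟨h, h' | h' | h'⟩
              · exact Or.inl h'
              · exact Or.inr h'
              · exact absurd h' h
            · rintro (rfl | rfl)
              · exact ⟨hxz, Or.inl rfl⟩
              · exact ⟨hyz, Or.inr (Or.inl rfl)⟩
          have g1 := hsm x hx
          have g2 := hsm y hy
          have g3 := hsm z hz
          rw [e1, prod_pair hyz] at g1
          rw [e2, prod_pair hxz] at g2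
          rw [e3, prod_pair hxy] at g3
          refine tripleStep D.toDatum (hTp x hx) (hTp y hy) (hTp z hz) hxy hxz hyz _ g1 g2 g3
            ?_ a ha' hW
          intro n' hn'
          obtain ⟨l, hl, hln⟩ := hnd2 n' hn'
          rw [hT, mem_insert, mem_insert, mem_singleton] at hl
          rcases hl with rfl | rfl | rfl
          · exact Or.inl hln
          · exact Or.inr (Or.inl hln)
          · exact Or.inr (Or.inr hln)

end chain

section final

variable {m : ℕ} [NeZero m] {A : Type} [AddCommGroup A] {P : Set (ℕ × ℕ)} (D : DatumX P m A)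

open Classical in
/-- the family of the allowed sets of primes dividing `m` -/
noncomputable def fam (P : Set (ℕ × ℕ)) (m : ℕ) : Finset (Finset ℕ) :=
  m.primeFactors.powerset.filter fun T => Al P T

omit [NeZero m] in
theorem mem_fam {T : Finset ℕ} : T ∈ fam P m ↔ T ⊆ m.primeFactors ∧ Al P T := by
  classical
  rw [fam, mem_filter, mem_powerset]

theorem chain_fam (hm : 2 ∣ m) (a : A) (ha : a ∈ D.lev (LV m (fam P m)))
    (hW : ∀ t, D.W t a = 0) : a = 0 := by
  refine chainX D hm _ (fam P m) rfl ?_ ?_ ?_ a ha hW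
  · intro T hT l hl
    exact Nat.prime_of_mem_primeFactors ((mem_fam.1 hT).1 hl)
  · intro T hT
    exact (mem_fam.1 hT).2
  · intro T hT l _
    rw [mem_fam] at hT ⊢
    exact ⟨(erase_subset l T).trans hT.1, hT.2.mono (erase_subset l T)⟩

/-- elements of odd order or of order divisible by four -/
theorem f_mem_of_order (y : ZMod m) (h2 : ¬ 2 ∣ addOrderOf y ∨ 4 ∣ addOrderOf y)
    (hA : Al P (addOrderOf y).primeFactors) : D.f y ∈ D.lev (LV m (fam P m)) := by
  have hm0 : m ≠ 0 := NeZero.ne m
  by_cases hy : y = 0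
  · rw [hy, D.zero]
    exact zero_mem _
  have hem : addOrderOf y ∣ m := by
    have := addOrderOf_dvd_card (x := y)
    rwa [ZMod.card] at this
  have h := f_mem_lev D.toDatum y hy
  refine lev_mono D.toDatum ?_ h
  rw [Set.singleton_subset_iff]
  have h1 : ∏ l ∈ (addOrderOf y).primeFactors, qq m l =
      ∏ l ∈ (addOrderOf y).primeFactors, PP m l := by
    refine prod_congr rfl fun l hl => ?_
    have hlp := Nat.prime_of_mem_primeFactors hl
    have hld := Nat.dvd_of_mem_primeFactors hl
    have h3 : 3 ≤ qq m l := by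
      refine Pool.Agent.FS.qq_ge hlp ?_
      unfold hb
      split_ifs with hl2
      · rcases h2 with h2 | h2
        · exact absurd (hl2 ▸ hld) h2
        · exact h2.trans hem
      · exact hld.trans hem
    exact (if_pos h3).symm
  rw [h1]
  exact Or.inr ⟨_, mem_fam.2 ⟨Nat.primeFactors_mono hem hm0, hA⟩, rfl⟩

theorem f_mem_of_mul (e : ℕ) (he : ¬ 2 ∣ e) (hA : Al P e.primeFactors) (y : ZMod m)
    (hy : (e : ZMod m) * y = 0) : D.f y ∈ D.lev (LV m (fam P m)) := by
  have he0 : e ≠ 0 := by rintro rfl; exact he (dvd_zero 2)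
  have h1 : addOrderOf y ∣ e := by
    rw [addOrderOf_dvd_iff_nsmul_eq_zero, nsmul_eq_mul]
    exact hy
  refine f_mem_of_order D y (Or.inl fun h => he (h.trans h1)) (hA.mono ?_)
  exact Nat.primeFactors_mono h1 he0

theorem f_good (hm : 2 ∣ m) (x : ZMod m) (hx : Good P (addOrderOf x)) :
    D.f x ∈ D.lev (LV m (fam P m)) := by
  have hm0 : m ≠ 0 := NeZero.ne m
  have hpos : 0 < addOrderOf x := addOrderOf_pos x
  obtain ⟨e', he', hA⟩ := hx
  change Al P e'.primeFactors at hA
  have hsub : ∀ e₁ : ℕ, ¬ 2 ∣ e₁ → e₁ ∣ addOrderOf x → e₁.primeFactors ⊆ e'.primeFactors := by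
    intro e₁ h2 hd l hl
    have hlp := Nat.prime_of_mem_primeFactors hl
    have hld := Nat.dvd_of_mem_primeFactors hl
    have hl2 : l ≠ 2 := by rintro rfl; exact h2 hld
    rcases he' with he' | he'
    · rw [he'] at hd hpos
      exact Nat.mem_primeFactors.2 ⟨hlp, hld.trans hd, hpos.ne'⟩
    · rw [he'] at hd hpos
      have h3 : l ∣ e' := by
        rcases hlp.dvd_mul.1 (hld.trans hd) with h | h
        · exact absurd ((Nat.prime_dvd_prime_iff_eq hlp Nat.prime_two).1 h) hl2
        · exact h
      exact Nat.mem_primeFactors.2 ⟨hlp, h3, by rintro rfl; simp at hpos⟩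
  by_cases h2 : 2 ∣ addOrderOf x
  · by_cases h4 : 4 ∣ addOrderOf x
    · refine f_mem_of_order D x (Or.inr h4) (hA.mono ?_)
      rcases he' with he' | he'
      · rw [he']
      · rw [he'] at h4 ⊢
        have h5 : 2 ∣ e' := by omega
        have he0 : e' ≠ 0 := by rintro rfl; rw [he'] at hpos; simp at hpos
        rw [Nat.primeFactors_mul (by norm_num) he0, Nat.prime_two.primeFactors]
        refine union_subset ?_ subset_rfl
        rw [singleton_subset_iff]
        exact Nat.mem_primeFactors.2 ⟨Nat.prime_two, h5, he0⟩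
    · -- order `2 e₁` with `e₁` odd
      obtain ⟨e₁, he₁⟩ := h2
      have hodd : ¬ 2 ∣ e₁ := fun h => h4 (by rw [he₁]; obtain ⟨c, rfl⟩ := h; exact ⟨c, by ring⟩)
      have hA1 : Al P e₁.primeFactors := hA.mono (hsub e₁ hodd (he₁ ▸ Dvd.intro_left 2 rfl))
      set h := ((m / 2 : ℕ) : ZMod m) with hh
      have hh2 : h + h = 0 := by
        have := Pool.Agent.Helper9.Fermat.half_neg (m := m) hm
        rw [neg_eq_iff_add_eq_zero] at this
        exact this
      -- `e₁ x = m / 2`
      have h1 : (e₁ : ZMod m) * x = h := by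
        have h3 : ((2 : ℕ) : ZMod m) * ((e₁ : ZMod m) * x) = 0 := by
          rw [← mul_assoc, ← Nat.cast_mul, ← he₁, ← nsmul_eq_mul]
          exact addOrderOf_nsmul_eq_zero x
        have h4' : (e₁ : ZMod m) * x ≠ 0 := by
          intro h5
          rw [← nsmul_eq_mul, ← addOrderOf_dvd_iff_nsmul_eq_zero, he₁] at h5
          have he1 : 0 < e₁ := Nat.pos_of_ne_zero (by rintro rfl; exact hodd (dvd_zero 2))
          have := Nat.le_of_dvd he1 h5
          omega
        have h6 : (e₁ : ZMod m) * x ∈ Pool.Agent.Helper9.Fermat.fib m 2 (((2 : ℕ) : ZMod m) * 0) := by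
          rw [Pool.Agent.Helper9.Fermat.mem_fib, h3, mul_zero]
        have h7 : Pool.Agent.Helper9.Fermat.fib m 2 (((2 : ℕ) : ZMod m) * 0) = {0, h} := by
          symm
          refine Finset.eq_of_subset_of_card_le ?_ ?_
          · intro z hz
            rw [mem_insert, mem_singleton] at hz
            rw [Pool.Agent.Helper9.Fermat.mem_fib]
            rcases hz with rfl | rfl
            · rfl
            · push_cast
              linear_combination hh2
          · rw [Pool.Agent.Helper9.Fermat.fib_card (by norm_num) hm,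
              card_pair (Pool.Agent.Helper9.Fermat.half_ne hm).symm]
        rw [h7, mem_insert, mem_singleton] at h6
        exact h6.resolve_left h4'
      obtain ⟨c, hc⟩ : ∃ c, e₁ = 2 * c + 1 := ⟨e₁ / 2, by omega⟩
      have h5 : (e₁ : ZMod m) * (x + h) = 0 := by
        have h6 : (e₁ : ZMod m) * h = h := by
          rw [hc]
          push_cast
          linear_combination (c : ZMod m) * hh2
        rw [mul_add, h1, h6, hh2]
      have hx' : x = (x + h) + h := by rw [add_assoc, hh2, add_zero]
      rw [hx', f_half D.toDatum hm (x + h)]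
      refine sub_mem (f_mem_of_mul D e₁ hodd hA1 _ ?_) (f_mem_of_mul D e₁ hodd hA1 _ h5)
      linear_combination 2 * h5
  · refine f_mem_of_order D x (Or.inl h2) (hA.mono (hsub _ h2 dvd_rfl))

/-- Elements of the subgroup generated by the good elements with zero weights are zero. -/
theorem zero_of_goodX (hm : 2 ∣ m) (a : A)
    (ha : a ∈ AddSubgroup.closure {a | ∃ x : ZMod m, Good P (addOrderOf x) ∧ a = D.f x})
    (hW : ∀ t, D.W t a = 0) : a = 0 := by
  refine chain_fam D hm a ?_ hW
  refine (AddSubgroup.closure_le _).2 ?_ ha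
  rintro b ⟨x, hx, rfl⟩
  exact f_good D hm x hx

end final

end Pool.Agent.FSU
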