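import Pool.Agent.FSU.Main

/-!
# The main theorem of the extended version
-/

set_option autoImplicit false

namespace Pool.Agent.FSU

open Finset
open Pool.Agent.FS (IsHodge Datum sw cntp RMain_remove)

/-- The main theorem: every order is the product of a `Good` number and of a number all of whose
prime factors are large compared to the number of elements of `S` with order divisible by them. -/
theorem mainX (P : Set (ℕ × ℕ)) (m : ℕ) [NeZero m] (hm : Even m) (S : Multiset (ZMod m))
    (h0 : (0 : ZMod m) ∉ S)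
    (heven : Even S.card) (hgood : ∀ x ∈ S, ∃ a b : ℕ, addOrderOf x = a * b ∧ Good P a ∧
      ∀ p : ℕ, p.Prime → p ∣ b → 2 * cntp S p + 1 < p ∧
        (4 * cntp S p + 1 < p ∨ ¬ 3 ∣ m ∨ (¬ 4 ∣ m ∧ ∀ y ∈ S, ¬ 2 ∣ addOrderOf y)))
    (hS : IsHodge S) : Gen P m S := by
  classical
  have hm0 : m ≠ 0 := NeZero.ne m
  obtain ⟨A, _, D, hD⟩ := exists_datumX P m hm
  refine hD S h0 heven ?_
  -- the weights
  have hW : ∀ t, D.W t (S.map D.f).sum = 0 := by
    intro t
    rw [map_multiset_sum, Multiset.map_map]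
    have h1 : S.map (D.W t ∘ D.f) = S.map fun x => 2 * (((t : ZMod m) * x).val : ℤ) - m := by
      refine Multiset.map_congr rfl fun x hx => ?_
      have hx0 : (t : ZMod m) * x ≠ 0 := by
        intro h
        have h2 := (t.isUnit.mul_right_eq_zero).1 h
        exact h0 (h2 ▸ hx)
      rw [Function.comp_apply, D.wf, sw, if_neg hx0]
    rw [h1]
    have h2 : ∀ (U : Multiset (ZMod m)),
        (U.map fun x => 2 * (((t : ZMod m) * x).val : ℤ) - m).sum =
          2 * (((U.map fun x => ((t : ZMod m) * x).val).sum : ℕ) : ℤ) - m * U.card := by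
      intro U
      induction U using Multiset.induction_on with
      | empty => simp
      | cons x U ih =>
        rw [Multiset.map_cons, Multiset.sum_cons, ih, Multiset.map_cons, Multiset.sum_cons,
          Multiset.card_cons]
        push_cast
        ring
    rw [h2]
    have h3 := hS t
    have h4 : (2 : ℤ) * (((S.map fun x => ((t : ZMod m) * x).val).sum : ℕ) : ℤ) =
        m * S.card := by exact_mod_cast h3
    rw [h4, sub_self]
  -- the large primes
  set s : Finset ℕ := m.primeFactors.filter fun r =>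
    (4 * cntp S r + 1 < r ∨ (¬ 3 ∣ m ∧ 2 * cntp S r + 1 < r) ∨
      ((¬ 4 ∣ m ∧ ∀ x ∈ S, ¬ 2 ∣ addOrderOf x) ∧ 2 * cntp S r + 1 < r)) ∧ 3 ≤ r with hs
  have hrem := RMain_remove D.toDatum hm S s (by
    intro r hr
    rw [hs, mem_filter, Nat.mem_primeFactors] at hr
    exact ⟨hr.1.1, hr.1.2.1, hr.2.1, hr.2.2⟩) hW
  rw [hrem]
  refine zero_of_goodX D hm.two_dvd _ ?_ fun t => by rw [← hrem]; exact hW t
  refine AddSubgroup.multiset_sum_mem _ _ ?_
  intro a ha
  rw [Multiset.mem_map] at ha
  obtain ⟨x, hx, rfl⟩ := ha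
  rw [Multiset.mem_filter] at hx
  refine AddSubgroup.subset_closure ⟨x, ?_, rfl⟩
  obtain ⟨a, b, hab, hga, hb⟩ := hgood x hx.1
  have hxm : addOrderOf x ∣ m := by
    have := addOrderOf_dvd_card (x := x)
    rwa [ZMod.card] at this
  have hb1 : b = 1 := by
    by_contra hne
    obtain ⟨p, hp, hpb⟩ := Nat.exists_prime_and_dvd hne
    have hpx : p ∣ addOrderOf x := hab ▸ hpb.mul_left a
    refine hx.2 p ?_ hpx
    have hc : 0 < cntp S p := Multiset.card_pos_iff_exists_mem.2
      ⟨x, Multiset.mem_filter.2 ⟨hx.1, hpx⟩⟩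
    rw [hs, mem_filter, Nat.mem_primeFactors]
    obtain ⟨h1, h2⟩ := hb p hp hpb
    refine ⟨⟨hp, hpx.trans hxm, hm0⟩, ?_, by omega⟩
    rcases h2 with h | h | h
    · exact Or.inl h
    · exact Or.inr (Or.inl ⟨h, h1⟩)
    · exact Or.inr (Or.inr ⟨h, h1⟩)
  rw [hab, hb1, mul_one]
  exact hga

end Pool.Agent.FSU
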