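import Pool.Agent.FS.RMain

/-!
# Hodge characters of Fermat varieties: definitions of the extended version

The system `Gen P m` contains, besides the generators of `FS.Gen m`, the Hodge characters of the
list `extra` which belong to the pairs of primes in `P`.
-/

set_option autoImplicit false

namespace Pool.Agent.FSU

open Finset
open Pool.Agent.FS (IsHodge Datum)

/-- Additional Hodge characters: the pair of primes, the level, the elements. -/
def extra : List (ℕ × ℕ × ℕ × List ℕ) :=
  [(5, 7, 35, [1, 2, 16, 21, 30, 17, 22, 31]),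
   (2, 11, 44, [1, 5, 8, 33, 41, 9, 37, 42]),
   (2, 13, 52, [1, 5, 9, 37, 12, 45, 49, 50]),
   (3, 17, 51, [1, 18, 34, 49, 10, 13, 28, 22, 37, 43]),
   (3, 19, 114, [1, 13, 43, 57, 61, 90, 92, 99]),
   (2, 17, 68, [31, 7, 64, 34, 2, 23, 43, 67, 63, 40, 34, 47, 15, 6]),
   (5, 11, 55, [1, 16, 26, 31, 36, 12, 27, 37, 42, 47])]

/-- The smallest system of multisets of elements of `ℤ/m` which contains the pairs `{x, -x}`,
`x ≠ 0`, the standard elements (all `z` with `r z = r x`, and `- r x`, and `m / 2` if `r = 2`), `r`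
a prime dividing `m`, `r x ≠ 0`, the Hodge characters with four elements, all nonzero, and the
multisets `{t (m / k) a | a ∈ l}` for the members `(p, q, k, l)` of `extra` with `(p, q) ∈ P` and
`k ∣ m` and for the units `t`, and is closed under joins and cancellation of pairs. -/
inductive Gen (P : Set (ℕ × ℕ)) (m : ℕ) [NeZero m] : Multiset (ZMod m) → Prop
  | pair (x : ZMod m) (hx : x ≠ 0) : Gen P m {x, -x}
  | standard (r : ℕ) (hr : r.Prime) (hrm : r ∣ m) (x : ZMod m) (hx : (r : ZMod m) * x ≠ 0) :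
      Gen P m ((univ.filter fun z : ZMod m => (r : ZMod m) * z = r * x).val + {-(r * x)} +
        (if r = 2 then {((m / 2 : ℕ) : ZMod m)} else 0))
  | surface (S : Multiset (ZMod m)) (h0 : (0 : ZMod m) ∉ S) (hc : S.card = 4)
      (hS : IsHodge S) : Gen P m S
  | fourfold (p q k : ℕ) (l : List ℕ) (h : (p, q, k, l) ∈ extra) (hP : (p, q) ∈ P) (hk : k ∣ m)
      (t : (ZMod m)ˣ) :
      Gen P m ((l : Multiset ℕ).map fun a => (t : ZMod m) * ((m / k * a : ℕ) : ZMod m))
  | join (S T : Multiset (ZMod m)) (hS : Gen P m S) (hT : Gen P m T) : Gen P m (S + T)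
  | cancel (S : Multiset (ZMod m)) (x : ZMod m) (hx : x ≠ 0) (hS : Gen P m (S + {x, -x})) :
      Gen P m S

/-- The pairs of primes whose class vanishes. -/
def Kill (P : Set (ℕ × ℕ)) (p q : ℕ) : Prop :=
  (p, q) ∈ [(2, 3), (2, 5), (2, 7), (3, 5), (3, 7), (3, 11), (3, 13)] ∨
    ((p, q) ∈ P ∧ (p, q) ∈ [(5, 7), (2, 11), (2, 13), (3, 17), (3, 19), (2, 17), (5, 11)])

/-- The orders allowed in the main theorem: `e` or `e / 2` is a number with at most three prime
factors, any two of which satisfy `Kill`. -/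
def Good (P : Set (ℕ × ℕ)) (e : ℕ) : Prop :=
  ∃ e' : ℕ, (e = e' ∨ e = 2 * e') ∧ e'.primeFactors.card ≤ 3 ∧
    ∀ p ∈ e'.primeFactors, ∀ q ∈ e'.primeFactors, p < q → Kill P p q

/-- A datum on which the additional Hodge characters vanish. -/
structure DatumX (P : Set (ℕ × ℕ)) (m : ℕ) [NeZero m] (A : Type) [AddCommGroup A] extends
    Datum m A where
  four : ∀ (p q k : ℕ) (l : List ℕ), (p, q, k, l) ∈ extra → (p, q) ∈ P → k ∣ m →
    (l.map fun a => f ((m / k * a : ℕ) : ZMod m)).sum = 0

end Pool.Agent.FSU
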