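import Pool.Agent.FSU.Defs

/-!
# The additional Hodge characters
-/

set_option autoImplicit false

namespace Pool.Agent.FSU

open Finset
open Pool.Agent.FS (IsHodge)
open Pool.Agent.FS.KillAux (val_emb)

/-- the check for a Hodge character -/
def chkL (N : ℕ) (l : List ℕ) : Bool :=
  decide (Even l.length) && decide (∀ a ∈ l, a % N ≠ 0) &&
    decide (∀ t ∈ range N, t.Coprime N → 2 * (l.map fun a => (t * a) % N).sum = N * l.length)

variable {m : ℕ} [NeZero m]

omit [NeZero m] in
theorem sum_mul (c : ℕ) (l : List ℕ) (g : ℕ → ℕ) :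
    (l.map fun a => c * g a).sum = c * (l.map g).sum := by
  induction l with
  | nil => simp
  | cons a l ih => rw [List.map_cons, List.sum_cons, List.map_cons, List.sum_cons, ih, mul_add]

theorem chkL_spec {N : ℕ} (hN : N ∣ m) {l : List ℕ} (h : chkL N l = true) (t : (ZMod m)ˣ) :
    (0 : ZMod m) ∉ ((l : Multiset ℕ).map fun a => (t : ZMod m) * ((m / N * a : ℕ) : ZMod m)) ∧
    Even (Multiset.card
      ((l : Multiset ℕ).map fun a => (t : ZMod m) * ((m / N * a : ℕ) : ZMod m))) ∧
    IsHodge ((l : Multiset ℕ).map fun a => (t : ZMod m) * ((m / N * a : ℕ) : ZMod m)) := by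
  have hm0 : 0 < m := Nat.pos_of_ne_zero (NeZero.ne m)
  have hN0 : 0 < N := Nat.pos_of_dvd_of_pos hN hm0
  have hmN : m / N * N = m := Nat.div_mul_cancel hN
  rw [chkL, Bool.and_eq_true, Bool.and_eq_true, decide_eq_true_eq, decide_eq_true_eq,
    decide_eq_true_eq] at h
  obtain ⟨⟨he, h0⟩, ht⟩ := h
  refine ⟨?_, ?_, ?_⟩
  · rw [Multiset.mem_map]
    rintro ⟨a, ha, h1⟩
    rw [t.isUnit.mul_right_eq_zero, ZMod.natCast_eq_zero_iff] at h1
    have h3 : 0 < m / N := Nat.div_pos (Nat.le_of_dvd hm0 hN) hN0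
    have h4 : m / N * N ∣ m / N * a := by rwa [hmN]
    exact h0 a (Multiset.mem_coe.1 ha)
      (Nat.mod_eq_zero_of_dvd (Nat.dvd_of_mul_dvd_mul_left h3 h4))
  · rw [Multiset.card_map, Multiset.coe_card]
    exact he
  · intro u
    rw [Multiset.map_map, Multiset.card_map, Multiset.coe_card, Multiset.map_coe,
      Multiset.sum_coe]
    have h1 : ∀ a : ℕ, ((fun x : ZMod m => ((u : ZMod m) * x).val) ∘
        fun a : ℕ => (t : ZMod m) * ((m / N * a : ℕ) : ZMod m)) a =
        m / N * ((((u * t : (ZMod m)ˣ) : ZMod m).val % N * a) % N) := by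
      intro a
      rw [Function.comp_apply, ← mul_assoc, ← Units.val_mul]
      exact val_emb hN _ a
    rw [List.map_congr_left fun a _ => h1 a, sum_mul]
    have hcop : (((u * t : (ZMod m)ˣ) : ZMod m).val % N).Coprime N := by
      have h1 := ZMod.val_coe_unit_coprime (u * t)
      have h2 : ((u * t : (ZMod m)ˣ) : ZMod m).val.Coprime N :=
        Nat.Coprime.coprime_dvd_right hN h1
      rw [Nat.Coprime, ← Nat.gcd_rec, Nat.gcd_comm]
      exact h2
    have h2 := ht _ (mem_range.2 (Nat.mod_lt _ hN0)) hcop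
    calc 2 * (m / N * (List.map (fun a => ((u * t : (ZMod m)ˣ) : ZMod m).val % N * a % N) l).sum)
        = m / N *
          (2 * (List.map (fun a => ((u * t : (ZMod m)ˣ) : ZMod m).val % N * a % N) l).sum) := by
            ring
      _ = m / N * (N * l.length) := by rw [h2]
      _ = (m / N * N) * l.length := by ring
      _ = _ := by rw [hmN]

theorem extra_chk {p q k : ℕ} {l : List ℕ} (h : (p, q, k, l) ∈ extra) : chkL k l = true := by
  simp only [extra, List.mem_cons, Prod.mk.injEq, List.not_mem_nil, or_false] at h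
  rcases h with ⟨-, -, rfl, rfl⟩ | ⟨-, -, rfl, rfl⟩ | ⟨-, -, rfl, rfl⟩ | ⟨-, -, rfl, rfl⟩ |
    ⟨-, -, rfl, rfl⟩ | ⟨-, -, rfl, rfl⟩ | ⟨-, -, rfl, rfl⟩
  all_goals decide +kernel

/-- The additional multisets do not contain zero, have even cardinality and are Hodge
characters. -/
theorem extra_spec {p q k : ℕ} {l : List ℕ} (h : (p, q, k, l) ∈ extra) (hk : k ∣ m)
    (t : (ZMod m)ˣ) :
    (0 : ZMod m) ∉ ((l : Multiset ℕ).map fun a => (t : ZMod m) * ((m / k * a : ℕ) : ZMod m)) ∧
    Even (Multiset.card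
      ((l : Multiset ℕ).map fun a => (t : ZMod m) * ((m / k * a : ℕ) : ZMod m))) ∧
    IsHodge ((l : Multiset ℕ).map fun a => (t : ZMod m) * ((m / k * a : ℕ) : ZMod m)) :=
  chkL_spec hk (extra_chk h) t

end Pool.Agent.FSU
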