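import Pool.Agent.FSU.Main
import Pool.Agent.FF.Fin2

/-!
# Hodge characters with at most six elements
-/

set_option autoImplicit false

namespace Pool.Agent.FSU

open Finset
open Pool.Agent.FS (IsHodge Datum sw cntp)
open Pool.Agent.FF (OKo OKo2 OKr six_lev six_lev2)

/-- the pairs which are used for at most six elements, except `(5, 11)` -/
def P6 : Set (ℕ × ℕ) := {(5, 7), (2, 11), (2, 13), (3, 17), (3, 19)}

theorem Kill_of_mem {P : Set (ℕ × ℕ)} (hP : P6 ⊆ P) {p q : ℕ}
    (hp : p ∈ ({2, 3, 5, 7} : Finset ℕ)) (hq : q ∈ ({2, 3, 5, 7} : Finset ℕ)) (hpq : p < q) :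
    Kill P p q := by
  have h57 : (5, 7) ∈ P := hP (by simp [P6])
  simp only [mem_insert, mem_singleton] at hp hq
  unfold Kill
  rcases hp with rfl | rfl | rfl | rfl <;> rcases hq with rfl | rfl | rfl | rfl <;>
    first
    | omega
    | (left; simp; done)
    | (right; exact ⟨h57, by simp⟩)

theorem Kill_of_mem2 {P : Set (ℕ × ℕ)} (hP : P6 ⊆ P) (h511 : (5, 11) ∈ P) {p q : ℕ}
    (hp : p ∈ ({2, 3, 5, 11} : Finset ℕ)) (hq : q ∈ ({2, 3, 5, 11} : Finset ℕ)) (hpq : p < q) :
    Kill P p q := by
  have h211 : (2, 11) ∈ P := hP (by simp [P6])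
  simp only [mem_insert, mem_singleton] at hp hq
  unfold Kill
  rcases hp with rfl | rfl | rfl | rfl <;> rcases hq with rfl | rfl | rfl | rfl <;>
    first
    | omega
    | (left; simp; done)
    | (right; exact ⟨h211, by simp⟩)
    | (right; exact ⟨h511, by simp⟩)

theorem Good_of_OKr {P : Set (ℕ × ℕ)} (hP : P6 ⊆ P) {r e : ℕ} (hr : r.Prime) (hr11 : 11 ≤ r)
    (he : e ∈ OKr r) : Good P e := by
  have h211 : (2, 11) ∈ P := hP (by simp [P6])
  have h213 : (2, 13) ∈ P := hP (by simp [P6])
  have h317 : (3, 17) ∈ P := hP (by simp [P6])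
  have h319 : (3, 19) ∈ P := hP (by simp [P6])
  have key : ∀ (l c : ℕ), l.Prime → l < r → (c : ℕ).primeFactors = {l} → Kill P l r →
      Good P (c * r) := by
    intro l c hl hlr hc hk
    have hc0 : c ≠ 0 := by
      rintro rfl
      rw [Nat.primeFactors_zero] at hc
      exact absurd hc.symm (singleton_ne_empty l)
    have h1 : (c * r).primeFactors = {l, r} := by
      rw [Nat.primeFactors_mul hc0 hr.ne_zero, hc, hr.primeFactors]
      rfl
    refine ⟨c * r, Or.inl rfl, ?_, ?_⟩
    · rw [h1]
      exact (card_le_two).trans (by norm_num)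
    · rw [h1]
      intro p hp q hq hpq
      simp only [mem_insert, mem_singleton] at hp hq
      rcases hp with rfl | rfl <;> rcases hq with rfl | rfl
      · omega
      · exact hk
      · omega
      · omega
  rcases he with rfl | ⟨h19, rfl⟩ | ⟨h13, rfl⟩
  · refine ⟨e, Or.inl rfl, ?_, ?_⟩
    · rw [hr.primeFactors, card_singleton]
      norm_num
    · rw [hr.primeFactors]
      intro p hp q hq hpq
      rw [mem_singleton] at hp hq
      omega
  · refine key 3 3 (by norm_num) (by omega) (Nat.Prime.primeFactors (by norm_num)) ?_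
    unfold Kill
    interval_cases r
    · left; simp
    · exact absurd hr (by norm_num)
    · left; simp
    · exact absurd hr (by norm_num)
    · exact absurd hr (by norm_num)
    · exact absurd hr (by norm_num)
    · exact Or.inr ⟨h317, by simp⟩
    · exact absurd hr (by norm_num)
    · exact Or.inr ⟨h319, by simp⟩
  · refine key 2 4 (by norm_num) (by omega) ?_ ?_
    · rw [show (4 : ℕ) = 2 ^ 2 by norm_num, Nat.primeFactors_pow _ (by norm_num),
        Nat.Prime.primeFactors (by norm_num)]
    · unfold Kill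
      interval_cases r
      · exact Or.inr ⟨h211, by simp⟩
      · exact absurd hr (by norm_num)
      · exact Or.inr ⟨h213, by simp⟩

theorem Good_of_OKo {P : Set (ℕ × ℕ)} (hP : P6 ⊆ P) {e : ℕ} (he : OKo e) : Good P e := by
  rcases he with ⟨e', he', h1, h2⟩ | ⟨r, hr, hr11, he⟩
  · exact ⟨e', he', h2, fun p hp q hq hpq => Kill_of_mem hP (h1 hp) (h1 hq) hpq⟩
  · exact Good_of_OKr hP hr hr11 he

theorem Good_of_OKo2 {P : Set (ℕ × ℕ)} (hP : P6 ⊆ P) (h511 : (5, 11) ∈ P) {e : ℕ} (he : OKo2 e) :
    Good P e := by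
  rcases he with he | ⟨e', he', h1, h2⟩
  · exact Good_of_OKo hP he
  · exact ⟨e', he', h2, fun p hp q hq hpq => Kill_of_mem2 hP h511 (h1 hp) (h1 hq) hpq⟩

/-- Hodge characters with at most six elements: they are generated if `P` contains the pairs
`(5, 7)`, `(2, 11)`, `(2, 13)`, `(3, 17)`, `(3, 19)` and, in addition, `(5, 11)`, unless `5` does
not divide `m` or at most four elements have an order divisible by `11`. -/
theorem sixX (P : Set (ℕ × ℕ)) (hP : P6 ⊆ P) (m : ℕ) [NeZero m] (hm : Even m)
    (S : Multiset (ZMod m)) (h0 : (0 : ZMod m) ∉ S) (heven : Even S.card) (hc : S.card ≤ 6)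
    (h5 : (5, 11) ∈ P ∨ ¬ 5 ∣ m ∨ cntp S 11 ≤ 4) (hS : IsHodge S) : Gen P m S := by
  classical
  obtain ⟨A, _, D, hD⟩ := exists_datumX P m hm
  refine hD S h0 heven ?_
  -- the weights
  have hW : ∀ t, D.W t (S.map D.f).sum = 0 := by
    intro t
    rw [map_multiset_sum, Multiset.map_map]
    have h1 : S.map (D.W t ∘ D.f) = S.map fun x => 2 * (((t : ZMod m) * x).val : ℤ) - m := by
      refine Multiset.map_congr rfl fun x hx => ?_
      have hx0 : (t : ZMod m) * x ≠ 0 := by
        intro h
        have h2 := (t.isUnit.mul_right_eq_zero).1 h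
        exact h0 (h2 ▸ hx)
      rw [Function.comp_apply, D.wf, sw, if_neg hx0]
    rw [h1]
    have h2 : ∀ (U : Multiset (ZMod m)),
        (U.map fun x => 2 * (((t : ZMod m) * x).val : ℤ) - m).sum =
          2 * (((U.map fun x => ((t : ZMod m) * x).val).sum : ℕ) : ℤ) - m * U.card := by
      intro U
      induction U using Multiset.induction_on with
      | empty => simp
      | cons x U ih =>
        rw [Multiset.map_cons, Multiset.sum_cons, ih, Multiset.map_cons, Multiset.sum_cons,
          Multiset.card_cons]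
        push_cast
        ring
    rw [h2]
    have h3 := hS t
    have h4 : (2 : ℤ) * (((S.map fun x => ((t : ZMod m) * x).val).sum : ℕ) : ℤ) =
        m * S.card := by exact_mod_cast h3
    rw [h4, sub_self]
  refine zero_of_goodX D hm.two_dvd _ ?_ hW
  rcases h5 with h5 | h5
  · refine (AddSubgroup.closure_mono ?_) (six_lev2 D.toDatum hm S hc hW)
    rintro a ⟨x, hx, rfl⟩
    exact ⟨x, Good_of_OKo2 hP h5 hx, rfl⟩
  · refine (AddSubgroup.closure_mono ?_) (six_lev D.toDatum hm S hc h5 hW)
    rintro a ⟨x, hx, rfl⟩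
    exact ⟨x, Good_of_OKo hP hx, rfl⟩

end Pool.Agent.FSU
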